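import Pool.Graph.R_pool_sql_team_seeded_620a6dc7.helper24_UT_.Stm4

set_option autoImplicit false

/-! Statements: the same as in `helper24_UT.Stm4`, with frequencies up to `Y ^ (1 / 2) (log Y) ^ G` and windows of
length at least `X ^ (1 / 2) / (log X) ^ G`. -/

namespace Pool.Agent.H561.SW

open Finset
open Pool.Agent.helper24_UT
open Pool.Agent.H376R2.MR (ch er DP FK)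

/-- the bilinear sums of Vaughan's identity in mean square over the frequencies -/
def S_II3 : Prop := ∀ e A B G : ℕ, 1 ≤ e → ∃ (K₂ Y₀ : ℕ), ∀ Y : ℕ, Y₀ ≤ Y → ∀ q r : ℕ, 1 ≤ q →
  (q : ℝ) ≤ (Real.log Y) ^ B → r.Coprime q → ∀ K₁ : ℕ, (K₁ : ℝ) ≤ (Y : ℝ) ^ (1 / 2 : ℝ) * (Real.log Y) ^ G →
  ∀ U V : ℕ, (Y : ℝ) ^ (1 / (8 * e) : ℝ) ≤ U → (U : ℝ) ≤ (Y : ℝ) ^ (1 / 4 : ℝ) → (Y : ℝ) ^ (1 / (8 * e) : ℝ) ≤ V →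
  (V : ℝ) ≤ (Y : ℝ) ^ (1 / 4 : ℝ) →
  ∑ k ∈ (FK K₁).filter (fun k : ℤ => (Real.log Y) ^ K₂ ≤ |(k : ℝ)|),
    ‖DP ((Ioc Y (3 * Y)).filter (fun n => n % q = r % q)) (fun n => ∑ x ∈ n.divisorsAntidiagonal.filter
      (fun x => U < x.1 ∧ V < x.2), (alU U x.1 : ℂ) * (ArithmeticFunction.vonMangoldt x.2 : ℂ)) k‖ ^ 2 ≤
    (Y : ℝ) ^ 2 / (Real.log Y) ^ A

/-- the linear sums of Vaughan's identity -/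
def S_TI3 : Prop := ∀ A B G : ℕ, ∃ (K₂ Y₀ : ℕ), ∀ Y : ℕ, Y₀ ≤ Y → ∀ q r : ℕ, 1 ≤ q →
  (q : ℝ) ≤ (Real.log Y) ^ B → r.Coprime q → ∀ K₁ : ℕ, (K₁ : ℝ) ≤ (Y : ℝ) ^ (1 / 2 : ℝ) * (Real.log Y) ^ G →
  ∀ (D : ℕ) (γ : ℕ → ℂ) (i : ℕ), (D : ℝ) ≤ (Y : ℝ) ^ (1 / 8 : ℝ) → (∀ b, ‖γ b‖ ≤ Real.log (b + 3)) → i ≤ 1 →
  ∑ k ∈ (FK K₁).filter (fun k : ℤ => (Real.log Y) ^ K₂ ≤ |(k : ℝ)|),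
    ‖DP ((Ioc Y (3 * Y)).filter (fun n => n % q = r % q)) (fun n => ∑ b ∈ n.divisors.filter (fun b => b ≤ D),
      γ b * (((Real.log ((n / b : ℕ) : ℝ)) ^ i : ℝ) : ℂ)) k‖ ^ 2 ≤
    (Y : ℝ) ^ 2 / (Real.log Y) ^ A

/-- primes in progressions, large frequencies -/
def S_FRL3 : Prop := ∀ A B G : ℕ, ∃ (K₂ Y₀ : ℕ), ∀ Y : ℕ, Y₀ ≤ Y → ∀ q r : ℕ, 1 ≤ q →
  (q : ℝ) ≤ (Real.log Y) ^ B → r.Coprime q → ∀ K₁ : ℕ, (K₁ : ℝ) ≤ (Y : ℝ) ^ (1 / 2 : ℝ) * (Real.log Y) ^ G →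
  ∑ k ∈ (FK K₁).filter (fun k : ℤ => (Real.log Y) ^ K₂ ≤ |(k : ℝ)|),
    ‖DP ((Ioc Y (3 * Y)).filter (fun n => n % q = r % q)) (fun n => (ArithmeticFunction.vonMangoldt n : ℂ)) k‖ ^ 2 ≤
    (Y : ℝ) ^ 2 / (Real.log Y) ^ A

/-- primes in progressions, all frequencies -/
def S_FR3 : Prop := ∀ A B G : ℕ, ∃ Y₀ : ℕ, ∀ Y : ℕ, Y₀ ≤ Y → ∀ q r : ℕ, 1 ≤ q →
  (q : ℝ) ≤ (Real.log Y) ^ B → r.Coprime q → ∀ K₁ : ℕ, (K₁ : ℝ) ≤ (Y : ℝ) ^ (1 / 2 : ℝ) * (Real.log Y) ^ G →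
  ∑ k ∈ FK K₁, ‖DP (Ioc Y (3 * Y)) (pdev q r) k‖ ^ 2 ≤ (Y : ℝ) ^ 2 / (Real.log Y) ^ A

/-- primes in progressions in almost all short intervals -/
def S_SIL3 : Prop := ∀ A B G : ℕ, ∃ X₀ : ℕ, ∀ X : ℕ, X₀ ≤ X → ∀ q r : ℕ, 1 ≤ q →
  (q : ℝ) ≤ (Real.log X) ^ B → r.Coprime q → ∀ W : ℕ, (X : ℝ) ^ (1 / 2 : ℝ) ≤ W * (Real.log X) ^ G → W ≤ X →
  ∑ u ∈ range X, ‖∑ n ∈ Ioc u (u + W), pdev q r n‖ ^ 2 ≤ X * (W : ℝ) ^ 2 / (Real.log X) ^ A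

/-- primes minus sieve model in progressions in almost all short intervals -/
def S_SI3 : Prop := ∀ A B G : ℕ, ∀ E₁ : ℕ, ∃ X₀ : ℕ, ∀ X : ℕ, X₀ ≤ X → ∀ z : ℕ,
  (Real.log X) ^ B ≤ z → (z : ℝ) ≤ (Real.log X) ^ E₁ → ∀ q : ℕ, 1 ≤ q → (q : ℝ) ≤ (Real.log X) ^ B →
  ∀ W : ℕ, (X : ℝ) ^ (1 / 2 : ℝ) ≤ W * (Real.log X) ^ G → W ≤ X →
  ∑ u ∈ range X, NN (Ed z) (u : ℤ) W q ≤ X * (W : ℝ) ^ 2 / (Real.log X) ^ A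

end Pool.Agent.H561.SW
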