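import Pool.Graph.R_pool_sql_team_seeded_620a6dc7.helper24_UT_.Frl2
import Pool.Agent.H561.SW.Stm

set_option autoImplicit false

namespace Pool.Agent.H561.SW.Frl3

open Finset
open Pool.Agent.helper24_UT
open Pool.Agent.helper24_UT.Frl2
open Pool.Agent.H376R2.MR (ch er DP FK)

theorem main : S_II3 → S_TI3 → S_FRL3 := by
  intro hII hTI A B G
  obtain ⟨K2, Y2, h2⟩ := hII 3 (A + 1) B G (by norm_num)
  obtain ⟨K3, Y3, h3⟩ := hTI (A + 1) B G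
  refine ⟨max K2 K3, max (max Y2 Y3) (max (2 ^ 48) ⌈Real.exp 9⌉₊), ?_⟩
  intro Y hY q r hq hqB hr K₁ hK
  have hYY2 : Y2 ≤ Y := (le_max_left _ _).trans ((le_max_left _ _).trans hY)
  have hYY3 : Y3 ≤ Y := (le_max_right _ _).trans ((le_max_left _ _).trans hY)
  have hYe : 2 ^ 48 ≤ Y := (le_max_left _ _).trans ((le_max_right _ _).trans hY)
  have hY9 : ⌈Real.exp 9⌉₊ ≤ Y := (le_max_right _ _).trans ((le_max_right _ _).trans hY)
  have hYeR : (2 : ℝ) ^ 48 ≤ (Y : ℝ) := by exact_mod_cast hYe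
  have hexp : Real.exp 9 ≤ (Y : ℝ) := Nat.ceil_le.1 hY9
  have hYpos : (0 : ℝ) < Y := (Real.exp_pos 9).trans_le hexp
  have hY1 : (1 : ℝ) ≤ Y := by
    have : (1 : ℝ) ≤ (2 : ℝ) ^ 48 := one_le_pow₀ (by norm_num)
    linarith
  have hlog : 9 ≤ Real.log Y := (Real.le_log_iff_exp_le hYpos).2 hexp
  obtain ⟨hceil, hone⟩ := ceil_bound (Y : ℝ) hYeR
  set U : ℕ := ⌈(Y : ℝ) ^ (1 / 24 : ℝ)⌉₊ with hUdef
  have hUlow0 : (Y : ℝ) ^ (1 / 24 : ℝ) ≤ U := Nat.le_ceil _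
  have hU1 : 1 ≤ U := by
    have : (1 : ℝ) ≤ U := by linarith
    exact_mod_cast this
  have hexpo : (1 / (8 * ((3 : ℕ) : ℝ)) : ℝ) = 1 / 24 := by norm_num
  have hUlow : (Y : ℝ) ^ (1 / (8 * ((3 : ℕ) : ℝ)) : ℝ) ≤ U := by
    rw [hexpo]; exact hUlow0
  -- upper bounds for the cut
  have hsq2 : (Y : ℝ) ^ (1 / 16 : ℝ) * (Y : ℝ) ^ (1 / 16 : ℝ) =
      (Y : ℝ) ^ (1 / 8 : ℝ) := by
    rw [← Real.rpow_add hYpos]
    norm_num
  have hUquarter : (U : ℝ) ≤ (Y : ℝ) ^ (1 / 4 : ℝ) :=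
    hceil.trans (Real.rpow_le_rpow_of_exponent_le hY1 (by norm_num))
  have hUtwo : (U : ℝ) ≤ (Y : ℝ) ^ (1 / 8 : ℝ) :=
    hceil.trans (Real.rpow_le_rpow_of_exponent_le hY1 (by norm_num))
  have hUU : ((U * U : ℕ) : ℝ) ≤ (Y : ℝ) ^ (1 / 8 : ℝ) := by
    rw [← hsq2]
    push_cast
    exact mul_le_mul hceil hceil (by positivity) (by positivity)
  have hUltY : U ≤ Y := by
    have h5 : (U : ℝ) ≤ (Y : ℝ) ^ (1 : ℝ) :=
      hUquarter.trans (Real.rpow_le_rpow_of_exponent_le hY1 (by norm_num))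
    rw [Real.rpow_one] at h5
    exact_mod_cast h5
  -- the three statements
  have e3 := h2 Y hYY2 q r hq hqB hr K₁ hK U U hUlow hUquarter hUlow hUquarter
  have e1 := h3 Y hYY3 q r hq hqB hr K₁ hK U
    (fun b => (((ArithmeticFunction.moebius b : ℤ) : ℝ) : ℂ)) 1 hUtwo
    (by
      intro b
      rw [Complex.norm_real, Real.norm_eq_abs]
      have h6 : |((ArithmeticFunction.moebius b : ℤ) : ℝ)| ≤ 1 := by
        rw [← Int.cast_abs]
        exact_mod_cast ArithmeticFunction.abs_moebius_le_one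
      refine h6.trans ?_
      rw [Real.le_log_iff_exp_le (by positivity)]
      have := Real.exp_one_lt_d9
      have hb : (0 : ℝ) ≤ b := Nat.cast_nonneg b
      linarith) le_rfl
  have e2 := h3 Y hYY3 q r hq hqB hr K₁ hK (U * U)
    (fun b => (((L1 U * m1 U) b : ℝ) : ℂ)) 0 hUU
    (by
      intro b
      rw [Complex.norm_real, Real.norm_eq_abs]
      exact gamma_bound U U b) (by norm_num)
  set s : Finset ℕ := (Ioc Y (3 * Y)).filter (fun n => n % q = r % q) with hs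
  set F1 : ℕ → ℂ := fun n => ∑ b ∈ n.divisors.filter (fun b => b ≤ U),
      (((ArithmeticFunction.moebius b : ℤ) : ℝ) : ℂ) *
        (((Real.log ((n / b : ℕ) : ℝ)) ^ 1 : ℝ) : ℂ) with hF1
  set F2 : ℕ → ℂ := fun n => ∑ b ∈ n.divisors.filter (fun b => b ≤ U * U),
      (((L1 U * m1 U) b : ℝ) : ℂ) * (((Real.log ((n / b : ℕ) : ℝ)) ^ 0 : ℝ) : ℂ) with hF2
  set F3 : ℕ → ℂ := fun n => ∑ x ∈ n.divisorsAntidiagonal.filter
      (fun x => U < x.1 ∧ U < x.2), (alU U x.1 : ℂ) * (ArithmeticFunction.vonMangoldt x.2 : ℂ)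
    with hF3
  have hid : ∀ n ∈ s, (ArithmeticFunction.vonMangoldt n : ℂ) = F1 n - F2 n - F3 n := by
    intro n hn
    have hn1 : Y < n := (Finset.mem_Ioc.1 (Finset.mem_filter.1 hn).1).1
    have hv := vaughan U U n hU1 (lt_of_le_of_lt hUltY hn1)
    rw [hF1, hF2, hF3]
    simp only [pow_one, pow_zero, Complex.ofReal_one, mul_one]
    have hv2 := congrArg (fun x : ℝ => (x : ℂ)) hv
    simp only [Complex.ofReal_sub, Complex.ofReal_sum, Complex.ofReal_mul,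
      Complex.ofReal_intCast] at hv2
    simp only [Complex.ofReal_intCast]
    exact hv2
  -- larger threshold
  have hmono : ∀ (K' : ℕ), K' ≤ max K2 K3 →
      (FK K₁).filter (fun k : ℤ => (Real.log Y) ^ (max K2 K3) ≤ |(k : ℝ)|) ⊆
      (FK K₁).filter (fun k : ℤ => (Real.log Y) ^ K' ≤ |(k : ℝ)|) := by
    intro K' hK' k hk
    rw [Finset.mem_filter] at hk ⊢
    exact ⟨hk.1, (pow_le_pow_right₀ (by linarith) hK').trans hk.2⟩
  have b1 : ∑ k ∈ (FK K₁).filter (fun k : ℤ => (Real.log Y) ^ (max K2 K3) ≤ |(k : ℝ)|),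
      ‖DP s F1 k‖ ^ 2 ≤ (Y : ℝ) ^ 2 / (Real.log Y) ^ (A + 1) :=
    (Finset.sum_le_sum_of_subset_of_nonneg (hmono K3 (le_max_right _ _))
      (fun _ _ _ => by positivity)).trans e1
  have b2 : ∑ k ∈ (FK K₁).filter (fun k : ℤ => (Real.log Y) ^ (max K2 K3) ≤ |(k : ℝ)|),
      ‖DP s F2 k‖ ^ 2 ≤ (Y : ℝ) ^ 2 / (Real.log Y) ^ (A + 1) :=
    (Finset.sum_le_sum_of_subset_of_nonneg (hmono K3 (le_max_right _ _))
      (fun _ _ _ => by positivity)).trans e2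
  have b3 : ∑ k ∈ (FK K₁).filter (fun k : ℤ => (Real.log Y) ^ (max K2 K3) ≤ |(k : ℝ)|),
      ‖DP s F3 k‖ ^ 2 ≤ (Y : ℝ) ^ 2 / (Real.log Y) ^ (A + 1) :=
    (Finset.sum_le_sum_of_subset_of_nonneg (hmono K2 (le_max_left _ _))
      (fun _ _ _ => by positivity)).trans e3
  calc ∑ k ∈ (FK K₁).filter (fun k : ℤ => (Real.log Y) ^ (max K2 K3) ≤ |(k : ℝ)|),
        ‖DP s (fun n => (ArithmeticFunction.vonMangoldt n : ℂ)) k‖ ^ 2
      ≤ ∑ k ∈ (FK K₁).filter (fun k : ℤ => (Real.log Y) ^ (max K2 K3) ≤ |(k : ℝ)|),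
        3 * (‖DP s F1 k‖ ^ 2 + ‖DP s F2 k‖ ^ 2 + ‖DP s F3 k‖ ^ 2) :=
        Finset.sum_le_sum fun k _ => dp_split s _ F1 F2 F3 hid k
    _ = 3 * ((∑ k ∈ (FK K₁).filter (fun k : ℤ => (Real.log Y) ^ (max K2 K3) ≤ |(k : ℝ)|),
          ‖DP s F1 k‖ ^ 2) + (∑ k ∈ (FK K₁).filter (fun k : ℤ => (Real.log Y) ^ (max K2 K3) ≤
          |(k : ℝ)|), ‖DP s F2 k‖ ^ 2) + ∑ k ∈ (FK K₁).filter (fun k : ℤ =>
          (Real.log Y) ^ (max K2 K3) ≤ |(k : ℝ)|), ‖DP s F3 k‖ ^ 2) := by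
        rw [← Finset.mul_sum, Finset.sum_add_distrib, Finset.sum_add_distrib]
    _ ≤ 9 * ((Y : ℝ) ^ 2 / (Real.log Y) ^ (A + 1)) := by linarith
    _ ≤ (Y : ℝ) ^ 2 / (Real.log Y) ^ A := by
        have hpos : (0 : ℝ) < (Real.log Y) ^ A := by positivity
        rw [pow_succ (Real.log Y) A, ← mul_div_assoc, div_le_div_iff₀ (by positivity) hpos]
        have : 9 * (Y : ℝ) ^ 2 * (Real.log Y) ^ A ≤ Real.log Y * ((Y : ℝ) ^ 2 * (Real.log Y) ^ A) := by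
          have h7 : 0 ≤ (Y : ℝ) ^ 2 * (Real.log Y) ^ A := by positivity
          nlinarith
        linarith



end Pool.Agent.H561.SW.Frl3
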