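import Pool.Graph.R_pool_sql_team_seeded_620a6dc7.helper24_UT_.II
import Pool.Graph.R_pool_sql_team_seeded_620a6dc7.helper24_UT_.Sil2
import Pool.Agent.H561.SW.Stm

set_option autoImplicit false

/-! The bilinear sums of Vaughan's identity in mean square over the frequencies `|k| ≤ Y^{1/2} (log Y)^G`
(the proof is the one of `helper24_UT.II`, with one more parameter). -/

namespace Pool.Agent.H561.SW.II3

open Finset
open Pool.Agent.helper24_UT
open Pool.Agent.helper24_UT.II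
open Pool.Agent.H376R2.MR (ch er DP FK)

/-- the energy of one product -/
lemma cellb {C : ℝ} (hC : 0 < C) (hmv : Mv C) (D ℓ H S R : ℝ) (hR : 1 ≤ R) (Y q s s' U V i K : ℕ) (hD : 2 ≤ D) (hK : 1 ≤ K)
    (hY : 1 ≤ Y) (hU : 1 ≤ U) (hS : S ^ 2 = Y) (hS0 : 0 < S) (hKS : (K : ℝ) ≤ S * R)
    (hl : 1 ≤ ℓ) (hlog : Real.log (3 * Y) ≤ 2 * ℓ) (hH : 0 < H) (KK : Finset ℤ) (hKK : KK ⊆ FK K)
    (hA : ∀ k ∈ KK, ‖DP ((ce D U Y i).filter (fun m => m % q = s)) (fun m => (alU U m : ℂ)) k‖ ≤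
      2 * ((min ⌊MM D U (i + 1)⌋₊ (3 * Y) : ℕ) : ℝ) / H)
    (hB : ∀ k ∈ KK, ‖DP ((JJ D U V Y i).filter (fun m => m % q = s'))
      (fun l => (ArithmeticFunction.vonMangoldt l : ℂ)) k‖ ≤
      2 * ((min ⌊3 * (Y : ℝ) / MM D U i⌋₊ (3 * Y) : ℕ) : ℝ) / H) :
    ∑ k ∈ KK, (‖DP ((ce D U Y i).filter (fun m => m % q = s)) (fun m => (alU U m : ℂ)) k‖ *
      ‖DP ((JJ D U V Y i).filter (fun m => m % q = s')) (fun l => (ArithmeticFunction.vonMangoldt l : ℂ)) k‖) ^ 2 ≤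
      104976 * C * ℓ ^ 5 * Y ^ 2 / H ^ 2 * R := by
  have hD0 : 0 < D := by linarith
  have hR0 : 0 < R := by linarith
  have hY1 : (1 : ℝ) ≤ Y := by exact_mod_cast hY
  have hY0 : (0 : ℝ) < Y := by linarith
  have hU0 : (1 : ℝ) ≤ U := by exact_mod_cast hU
  have hMU : (U : ℝ) ≤ MM D U i := MM_ge hD0 U i
  have hMs : MM D U (i + 1) = MM D U i * Real.exp (1 / D) := MM_succ U i
  set M := MM D U i with hM
  have hM1 : 1 ≤ M := by linarith
  have hM0 : 0 < M := by linarith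
  have hexp : Real.exp (1 / D) ≤ 2 := by
    have h2 : 1 / D ≤ 1 / 2 := one_div_le_one_div_of_le (by norm_num) hD
    have := exp_le_two (by positivity) h2
    linarith
  set N₂ : ℕ := min ⌊MM D U (i + 1)⌋₊ (3 * Y) with hN₂
  set N₂' : ℕ := min ⌊3 * (Y : ℝ) / M⌋₊ (3 * Y) with hN₂'
  have hN2M : (N₂ : ℝ) ≤ 3 * M := by
    have h1 : (N₂ : ℝ) ≤ MM D U (i + 1) := by
      have h2 : 0 ≤ MM D U (i + 1) := (Nat.cast_nonneg U).trans (MM_ge hD0 U _)
      exact (Nat.cast_le.mpr (min_le_left _ _)).trans (Nat.floor_le h2)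
    rw [hMs] at h1
    nlinarith
  have hN2Y : (N₂ : ℝ) ≤ 3 * Y := by
    have : N₂ ≤ 3 * Y := min_le_right _ _
    exact_mod_cast this
  have hN2M' : (N₂' : ℝ) ≤ 3 * Y / M :=
    (Nat.cast_le.mpr (min_le_left _ _)).trans (Nat.floor_le (by positivity))
  have hN2Y' : (N₂' : ℝ) ≤ 3 * Y := by
    have : N₂' ≤ 3 * Y := min_le_right _ _
    exact_mod_cast this
  have h3Y : (1 : ℝ) ≤ 3 * Y := by linarith
  have hlog0 : 0 ≤ Real.log (3 * Y) := Real.log_nonneg h3Y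
  have hlog1 : 1 + Real.log (3 * Y) ≤ 3 * ℓ := by linarith
  set fA : ℤ → ℝ := fun k => ‖DP ((ce D U Y i).filter (fun m => m % q = s)) (fun m => (alU U m : ℂ)) k‖ with hfA
  set fB : ℤ → ℝ := fun k => ‖DP ((JJ D U V Y i).filter (fun m => m % q = s'))
    (fun l => (ArithmeticFunction.vonMangoldt l : ℂ)) k‖ with hfB
  have hfA0 : ∀ k, 0 ≤ fA k := fun k => norm_nonneg _
  have hfB0 : ∀ k, 0 ≤ fB k := fun k => norm_nonneg _
  change ∑ k ∈ KK, (fA k * fB k) ^ 2 ≤ _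
  rcases le_or_gt M S with hMS | hMS
  · -- the sum over `m` is short
    have hKM : (K : ℝ) ≤ Y / M * R := by
      rw [div_mul_eq_mul_div, le_div_iff₀ hM0]
      have : (K : ℝ) * M ≤ (S * R) * S := mul_le_mul hKS hMS hM0.le (by positivity)
      calc (K : ℝ) * M ≤ (S * R) * S := this
        _ = S ^ 2 * R := by ring
        _ = Y * R := by rw [hS]
    have hYM : (Y : ℝ) / M ≤ Y / M * R := le_mul_of_one_le_right (by positivity) hR
    have hEn : ∑ k ∈ FK K, fB k ^ 2 ≤ C * (1 + Real.log (3 * Y)) * ((3 * Y / M + K) * (3 * Y / M * (2 * ℓ) ^ 2)) := by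
      refine energy hC hmv _ _ (3 * Y) (3 * Y / M) _ K h3Y (by positivity) (div_le_self (by positivity) hM1) ?_ ?_ hK
      · intro n hn
        rw [Finset.mem_filter, JJ, Finset.mem_Ioc] at hn
        refine ⟨by omega, ?_⟩
        exact (Nat.cast_le.mpr hn.1.2).trans hN2M'
      · have hsub : (JJ D U V Y i).filter (fun m => m % q = s') ⊆ Icc 1 N₂' := by
          intro n hn
          rw [Finset.mem_filter, JJ, Finset.mem_Ioc] at hn
          rw [Finset.mem_Icc]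
          exact ⟨by omega, hn.1.2⟩
        calc ∑ n ∈ (JJ D U V Y i).filter (fun m => m % q = s'), ‖(ArithmeticFunction.vonMangoldt n : ℂ)‖ ^ 2
            ≤ ∑ n ∈ Icc 1 N₂', ‖(ArithmeticFunction.vonMangoldt n : ℂ)‖ ^ 2 :=
              Finset.sum_le_sum_of_subset_of_nonneg hsub fun _ _ _ => by positivity
          _ ≤ ∑ n ∈ Icc 1 N₂', (2 * ℓ) ^ 2 := by
              refine Finset.sum_le_sum fun n hn => ?_
              rw [Finset.mem_Icc] at hn
              rw [Complex.norm_real, Real.norm_of_nonneg ArithmeticFunction.vonMangoldt_nonneg]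
              refine pow_le_pow_left₀ ArithmeticFunction.vonMangoldt_nonneg ?_ 2
              refine ArithmeticFunction.vonMangoldt_le_log.trans ?_
              refine (Real.log_le_log (by exact_mod_cast hn.1) ?_).trans hlog
              exact (Nat.cast_le.mpr hn.2).trans hN2Y'
          _ = N₂' * (2 * ℓ) ^ 2 := by rw [Finset.sum_const, Nat.card_Icc]; simp
          _ ≤ _ := by gcongr
    calc ∑ k ∈ KK, (fA k * fB k) ^ 2 ≤ ∑ k ∈ KK, (6 * M / H) ^ 2 * fB k ^ 2 := by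
          refine Finset.sum_le_sum fun k hk => ?_
          rw [mul_pow]
          refine mul_le_mul_of_nonneg_right (pow_le_pow_left₀ (hfA0 k) ?_ 2) (by positivity)
          refine (hA k hk).trans ?_
          have : 6 * M = 2 * (3 * M) := by ring
          rw [this]
          gcongr
      _ = (6 * M / H) ^ 2 * ∑ k ∈ KK, fB k ^ 2 := by rw [Finset.mul_sum]
      _ ≤ (6 * M / H) ^ 2 * ∑ k ∈ FK K, fB k ^ 2 := by
          gcongr
      _ ≤ (6 * M / H) ^ 2 * (C * (1 + Real.log (3 * Y)) * ((3 * Y / M + K) * (3 * Y / M * (2 * ℓ) ^ 2))) := by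
          gcongr
      _ ≤ (6 * M / H) ^ 2 * (C * (3 * ℓ) * ((3 * (Y / M * R) + Y / M * R) * (3 * Y / M * (2 * ℓ) ^ 2))) := by
          have : 3 * (Y : ℝ) / M ≤ 3 * (Y / M * R) := by
            rw [mul_div_assoc]
            linarith
          gcongr
      _ = 5184 * C * ℓ ^ 3 * Y ^ 2 / H ^ 2 * R := by
          field_simp
          ring
      _ ≤ 104976 * C * ℓ ^ 5 * Y ^ 2 / H ^ 2 * R := by
          have : ℓ ^ 3 ≤ ℓ ^ 5 := pow_le_pow_right₀ hl (by norm_num)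
          gcongr
          norm_num
  · -- the sum over `m` is long
    have hKM : (K : ℝ) ≤ M * R := hKS.trans (mul_le_mul_of_nonneg_right hMS.le hR0.le)
    have hMR : M ≤ M * R := le_mul_of_one_le_right hM0.le hR
    have hEn : ∑ k ∈ FK K, fA k ^ 2 ≤ C * (1 + Real.log (3 * Y)) *
        ((min (3 * M) (3 * Y) + K) * (3 * M * (3 * ℓ) ^ 4)) := by
      refine energy hC hmv _ _ (3 * Y) (min (3 * M) (3 * Y)) _ K h3Y (by positivity) (min_le_right _ _) ?_ ?_ hK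
      · intro n hn
        rw [Finset.mem_filter, ce, Finset.mem_Ioc] at hn
        refine ⟨by omega, le_min ((Nat.cast_le.mpr hn.1.2).trans hN2M) ((Nat.cast_le.mpr hn.1.2).trans hN2Y)⟩
      · have hsub : (ce D U Y i).filter (fun m => m % q = s) ⊆ Icc 1 N₂ := by
          intro n hn
          rw [Finset.mem_filter, ce, Finset.mem_Ioc] at hn
          rw [Finset.mem_Icc]
          exact ⟨by omega, hn.1.2⟩
        rcases Nat.eq_zero_or_pos N₂ with h0 | h0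
        · rw [h0, Finset.Icc_eq_empty (by norm_num), Finset.subset_empty] at hsub
          rw [hsub, Finset.sum_empty]
          positivity
        · calc ∑ n ∈ (ce D U Y i).filter (fun m => m % q = s), ‖(alU U n : ℂ)‖ ^ 2
              ≤ ∑ n ∈ Icc 1 N₂, ‖(alU U n : ℂ)‖ ^ 2 :=
                Finset.sum_le_sum_of_subset_of_nonneg hsub fun _ _ _ => by positivity
            _ ≤ ∑ n ∈ Icc 1 N₂, tau n ^ 2 := by
                refine Finset.sum_le_sum fun n _ => ?_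
                exact pow_le_pow_left₀ (norm_nonneg _) (alU_norm U n) 2
            _ ≤ N₂ * (1 + Real.log N₂) ^ (2 ^ 2) := tau_pow_sum 2 N₂ h0
            _ ≤ 3 * M * (3 * ℓ) ^ 4 := by
                have h1 : Real.log N₂ ≤ Real.log (3 * Y) := Real.log_le_log (by exact_mod_cast h0) hN2Y
                have h2 : 0 ≤ Real.log N₂ := Real.log_nonneg (by exact_mod_cast h0)
                have h3 : (1 + Real.log N₂) ^ (2 ^ 2) ≤ (3 * ℓ) ^ 4 := by
                  norm_num only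
                  exact pow_le_pow_left₀ (by linarith) (by linarith) 4
                exact mul_le_mul hN2M h3 (by positivity) (by positivity)
    calc ∑ k ∈ KK, (fA k * fB k) ^ 2 ≤ ∑ k ∈ KK, (6 * Y / M / H) ^ 2 * fA k ^ 2 := by
          refine Finset.sum_le_sum fun k hk => ?_
          rw [mul_comm (fA k), mul_pow]
          refine mul_le_mul_of_nonneg_right (pow_le_pow_left₀ (hfB0 k) ?_ 2) (by positivity)
          refine (hB k hk).trans ?_
          have : 6 * (Y : ℝ) / M = 2 * (3 * Y / M) := by ring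
          rw [this]
          gcongr
      _ = (6 * Y / M / H) ^ 2 * ∑ k ∈ KK, fA k ^ 2 := by rw [Finset.mul_sum]
      _ ≤ (6 * Y / M / H) ^ 2 * ∑ k ∈ FK K, fA k ^ 2 := by
          gcongr
      _ ≤ (6 * Y / M / H) ^ 2 * (C * (1 + Real.log (3 * Y)) *
        ((min (3 * M) (3 * Y) + K) * (3 * M * (3 * ℓ) ^ 4))) := by
          gcongr
      _ ≤ (6 * Y / M / H) ^ 2 * (C * (3 * ℓ) * ((3 * (M * R) + M * R) * (3 * M * (3 * ℓ) ^ 4))) := by
          gcongr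
          exact (min_le_left _ _).trans (by linarith)
      _ = 104976 * C * ℓ ^ 5 * Y ^ 2 / H ^ 2 * R := by
          field_simp
          ring

theorem core {C : ℝ} (hC : 0 < C) (hmv : Mv C) (D ℓ E H S R : ℝ) (hR : 1 ≤ R) (Y q r U V K : ℕ) (hD : 2 ≤ D) (hK : 1 ≤ K)
    (hY : 1 ≤ Y) (hU : 1 ≤ U) (hq : 1 ≤ q) (hrq : r.Coprime q) (hS : S ^ 2 = Y) (hS0 : 0 < S) (hKS : (K : ℝ) ≤ S * R)
    (hKY : (K : ℝ) ≤ Y) (hl : 1 ≤ ℓ) (hlog : Real.log (9 * Y) ≤ 2 * ℓ) (hH : 0 < H) (hE0 : 0 < E) (hE : E ^ 2 ≤ D)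
    (KK : Finset ℤ) (hKK : KK ⊆ FK K)
    (hA : ∀ k ∈ KK, ∀ s : ℕ, s < q → s.Coprime q → ∀ N : ℕ, U ≤ N → N ≤ 3 * Y →
      ‖∑ n ∈ (Icc 1 N).filter (fun n => n % q = s), (alU U n : ℂ) * tw k n‖ ≤ N / H)
    (hB : ∀ k ∈ KK, ∀ s : ℕ, s < q → s.Coprime q → ∀ N : ℕ, V ≤ N → N ≤ 3 * Y →
      ‖∑ n ∈ (Icc 1 N).filter (fun n => n % q = s), (ArithmeticFunction.vonMangoldt n : ℂ) * tw k n‖ ≤ N / H) :
    ∑ k ∈ KK, ‖DP ((Ioc Y (3 * Y)).filter (fun n => n % q = r % q)) (fun n => ∑ x ∈ n.divisorsAntidiagonal.filter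
      (fun x => U < x.1 ∧ V < x.2), (alU U x.1 : ℂ) * (ArithmeticFunction.vonMangoldt x.2 : ℂ)) k‖ ^ 2 ≤
    2 * (28343520 * C * ℓ ^ 11 * Y ^ 2 / E) +
      2 * (((⌈D * Real.log ((3 * Y : ℕ) : ℝ)⌉₊ : ℝ) * q ^ 2) ^ 2 * (104976 * C * ℓ ^ 5 * Y ^ 2 / H ^ 2 * R)) := by
  have hR0 : 0 < R := by linarith
  have hD0 : 0 < D := by linarith
  have hY1 : (1 : ℝ) ≤ Y := by exact_mod_cast hY
  have hY0 : (0 : ℝ) < Y := by linarith
  have hlog3 : Real.log (3 * Y) ≤ 2 * ℓ := by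
    refine (Real.log_le_log (by positivity) ?_).trans hlog
    linarith
  -- abbreviations
  set a : ℕ → ℂ := fun m => (alU U m : ℂ) with ha
  set b : ℕ → ℂ := fun l => (ArithmeticFunction.vonMangoldt l : ℂ) with hb
  set J := range ⌈D * Real.log ((3 * Y : ℕ) : ℝ)⌉₊ ×ˢ Qs q r with hJ
  set c : ℕ → ℂ := fun n => ∑ x ∈ n.divisorsAntidiagonal.filter
      (fun x => U < x.1 ∧ V < x.2), (alU U x.1 : ℂ) * (ArithmeticFunction.vonMangoldt x.2 : ℂ) with hc
  set c1 : ℕ → ℂ := fun n => ∑ p ∈ (T1 U V Y q r \ T2 D U V Y q r).filter (fun p => p.1 * p.2 = n),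
    a p.1 * b p.2 with hc1
  set c2 : ℕ → ℂ := fun n => ∑ p ∈ (T2 D U V Y q r \ T1 U V Y q r).filter (fun p => p.1 * p.2 = n),
    a p.1 * b p.2 with hc2
  set fA : ℕ × (ℕ × ℕ) → ℤ → ℂ := fun j k => DP ((ce D U Y j.1).filter (fun m => m % q = j.2.1)) a k with hfA
  set fB : ℕ × (ℕ × ℕ) → ℤ → ℂ := fun j k => DP ((JJ D U V Y j.1).filter (fun m => m % q = j.2.2)) b k with hfB
  have hT1 : ∀ p ∈ T1 U V Y q r, p.1 ≠ 0 ∧ p.2 ≠ 0 := by
    intro p hp
    simp only [T1, Finset.mem_filter, Finset.mem_product, Finset.mem_Ioc] at hp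
    omega
  have hT2 : ∀ p ∈ T2 D U V Y q r, p.1 ≠ 0 ∧ p.2 ≠ 0 := by
    intro p hp
    simp only [T2, Finset.mem_filter, Finset.mem_product, Finset.mem_Ioc] at hp
    omega
  -- the main identity
  have hmain : ∀ k : ℤ, DP ((Ioc Y (3 * Y)).filter (fun n => n % q = r % q)) c k =
      DP (Sh D Y) (fun n => c1 n - c2 n) k + ∑ j ∈ J, fA j k * fB j k := by
    intro k
    set F : ℕ × ℕ → ℂ := fun p => (a p.1 * ch k (Real.log p.1)) * (b p.2 * ch k (Real.log p.2)) with hF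
    have h1 : DP ((Ioc Y (3 * Y)).filter (fun n => n % q = r % q)) c k = ∑ p ∈ T1 U V Y q r, F p := by
      rw [hF, collect ((Ioc Y (3 * Y)).filter (fun n => n % q = r % q)) (T1 U V Y q r) a b k hT1]
      · unfold DP
        refine Finset.sum_congr rfl fun n hn => ?_
        congr 1
        rw [hc]
        refine Finset.sum_congr ?_ fun _ _ => rfl
        ext p
        simp only [Finset.mem_filter, Finset.mem_Ioc] at hn
        simp only [T1, Finset.mem_filter, Finset.mem_product, Finset.mem_Ioc, Nat.mem_divisorsAntidiagonal]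
        constructor
        · rintro ⟨⟨h2, h3⟩, h4, h5⟩
          have h6 : p.1 ≤ n := by rw [← h2]; exact Nat.le_mul_of_pos_right _ (by omega)
          have h7 : p.2 ≤ n := by rw [← h2]; exact Nat.le_mul_of_pos_left _ (by omega)
          rw [h2]
          exact ⟨⟨⟨⟨h4, by omega⟩, h5, by omega⟩, ⟨hn.1.1, hn.1.2⟩, hn.2⟩, rfl⟩
        · rintro ⟨⟨⟨⟨h2, h3⟩, h4, h5⟩, _, _⟩, h8⟩
          exact ⟨⟨h8, by omega⟩, h2, h4⟩
      · intro p hp
        simp only [T1, Finset.mem_filter, Finset.mem_product, Finset.mem_Ioc] at hp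
        simp only [Finset.mem_filter, Finset.mem_Ioc]
        exact ⟨hp.2.1, hp.2.2⟩
    have h2 : ∑ p ∈ T2 D U V Y q r, F p = ∑ j ∈ J, fA j k * fB j k := by
      rw [hF]
      exact decomp hD0 hU hq (fun m => a m * ch k (Real.log m)) (fun l => b l * ch k (Real.log l))
    have h3 : ∑ p ∈ T1 U V Y q r \ T2 D U V Y q r, F p = DP (Sh D Y) c1 k := by
      rw [hF, collect (Sh D Y) _ a b k (fun p hp => hT1 p (Finset.mem_sdiff.mp hp).1)
        (fun p hp => sd1 hD0 hU hp)]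
    have h4 : ∑ p ∈ T2 D U V Y q r \ T1 U V Y q r, F p = DP (Sh D Y) c2 k := by
      rw [hF, collect (Sh D Y) _ a b k (fun p hp => hT2 p (Finset.mem_sdiff.mp hp).1)
        (fun p hp => sd2 hD0 hU hp)]
    have h5 := Finset.sum_sdiff_sub_sum_sdiff (s₁ := T1 U V Y q r) (s₂ := T2 D U V Y q r) (f := F)
    have h6 : DP (Sh D Y) (fun n => c1 n - c2 n) k = DP (Sh D Y) c1 k - DP (Sh D Y) c2 k := by
      unfold DP
      rw [← Finset.sum_sub_distrib]
      refine Finset.sum_congr rfl fun n _ => ?_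
      ring
    rw [h1, h6, ← h2, ← h3, ← h4]
    linear_combination h5
  -- the error term
  have herr : ∑ k ∈ KK, ‖DP (Sh D Y) (fun n => c1 n - c2 n) k‖ ^ 2 ≤ 28343520 * C * ℓ ^ 11 * Y ^ 2 / E := by
    refine le_trans (Finset.sum_le_sum_of_subset_of_nonneg hKK fun _ _ _ => by positivity) ?_
    refine errE hC hmv D ℓ E Y K hD hK hY hKY hl hlog hE0 hE _ ?_
    intro n hn
    have hn1 := Finset.mem_Icc.mp (Sh_sub hD Y hn)
    refine (norm_sub_le _ _).trans ?_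
    have h1 := coef_le U n hn1.1 ((T1 U V Y q r \ T2 D U V Y q r).filter (fun p => p.1 * p.2 = n))
      (fun p hp => (Finset.mem_filter.mp hp).2)
    have h2 := coef_le U n hn1.1 ((T2 D U V Y q r \ T1 U V Y q r).filter (fun p => p.1 * p.2 = n))
      (fun p hp => (Finset.mem_filter.mp hp).2)
    have h3 : ‖c1 n‖ ≤ tau n * Real.log n := h1
    have h4 : ‖c2 n‖ ≤ tau n * Real.log n := h2
    linarith
  -- the products
  have hprod : ∀ j ∈ J, ∑ k ∈ KK, (‖fA j k‖ * ‖fB j k‖) ^ 2 ≤ 104976 * C * ℓ ^ 5 * Y ^ 2 / H ^ 2 * R := by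
    intro j hj
    simp only [hJ, Finset.mem_product, Finset.mem_range, Qs, Finset.mem_filter] at hj
    obtain ⟨hj1, ⟨hj2, hj3⟩, hj4⟩ := hj
    have hco : (j.2.1 * j.2.2).Coprime q := by
      have h1 : Nat.gcd (j.2.1 * j.2.2) q = Nat.gcd r q := by
        rw [Nat.gcd_comm, Nat.gcd_rec, hj4, ← Nat.gcd_rec, Nat.gcd_comm]
      rw [Nat.Coprime, h1]
      exact hrq
    have hco1 : j.2.1.Coprime q := Nat.Coprime.coprime_mul_right hco
    have hco2 : j.2.2.Coprime q := Nat.Coprime.coprime_mul_left hco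
    have hM0 : (U : ℝ) ≤ MM D U j.1 := MM_ge hD0 U j.1
    refine cellb hC hmv D ℓ H S R hR Y q j.2.1 j.2.2 U V j.1 K hD hK hY hU hS hS0 hKS hl hlog3 hH KK hKK ?_ ?_
    · intro k hk
      refine supb a k q j.2.1 U (3 * Y) H hH (fun N h1 h2 => hA k hk _ hj2 hco1 N h1 h2) _ _ ?_ (min_le_right _ _)
      exact Nat.le_floor hM0
    · intro k hk
      exact supb b k q j.2.2 V (3 * Y) H hH (fun N h1 h2 => hB k hk _ hj3 hco2 N h1 h2) _ _ (le_max_left _ _)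
        (min_le_right _ _)
  have hsum : ∑ k ∈ KK, ‖∑ j ∈ J, fA j k * fB j k‖ ^ 2 ≤
      (J.card : ℝ) ^ 2 * (104976 * C * ℓ ^ 5 * Y ^ 2 / H ^ 2 * R) := by
    calc ∑ k ∈ KK, ‖∑ j ∈ J, fA j k * fB j k‖ ^ 2
        ≤ ∑ k ∈ KK, (J.card : ℝ) * ∑ j ∈ J, (‖fA j k‖ * ‖fB j k‖) ^ 2 := by
          refine Finset.sum_le_sum fun k _ => ?_
          have h1 : ‖∑ j ∈ J, fA j k * fB j k‖ ≤ ∑ j ∈ J, ‖fA j k‖ * ‖fB j k‖ := by
            refine (norm_sum_le _ _).trans (le_of_eq ?_)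
            refine Finset.sum_congr rfl fun j _ => norm_mul _ _
          exact (pow_le_pow_left₀ (norm_nonneg _) h1 2).trans sq_sum_le_card_mul_sum_sq
      _ = (J.card : ℝ) * ∑ j ∈ J, ∑ k ∈ KK, (‖fA j k‖ * ‖fB j k‖) ^ 2 := by
          rw [← Finset.mul_sum, Finset.sum_comm]
      _ ≤ (J.card : ℝ) * ∑ j ∈ J, (104976 * C * ℓ ^ 5 * Y ^ 2 / H ^ 2 * R) := by
          refine mul_le_mul_of_nonneg_left (Finset.sum_le_sum hprod) (Nat.cast_nonneg _)
      _ = _ := by rw [Finset.sum_const, nsmul_eq_mul]; ring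
  have hcard : (J.card : ℝ) ≤ (⌈D * Real.log ((3 * Y : ℕ) : ℝ)⌉₊ : ℝ) * q ^ 2 := by
    rw [hJ, Finset.card_product, Finset.card_range, Nat.cast_mul]
    exact mul_le_mul_of_nonneg_left (card_Qs q r) (Nat.cast_nonneg _)
  calc ∑ k ∈ KK, ‖DP ((Ioc Y (3 * Y)).filter (fun n => n % q = r % q)) c k‖ ^ 2
      ≤ ∑ k ∈ KK, (2 * ‖DP (Sh D Y) (fun n => c1 n - c2 n) k‖ ^ 2 + 2 * ‖∑ j ∈ J, fA j k * fB j k‖ ^ 2) := by
        refine Finset.sum_le_sum fun k _ => ?_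
        rw [hmain k]
        have h1 := norm_add_le (DP (Sh D Y) (fun n => c1 n - c2 n) k) (∑ j ∈ J, fA j k * fB j k)
        have h2 := pow_le_pow_left₀ (norm_nonneg _) h1 2
        nlinarith [sq_nonneg (‖DP (Sh D Y) (fun n => c1 n - c2 n) k‖ - ‖∑ j ∈ J, fA j k * fB j k‖)]
    _ = 2 * ∑ k ∈ KK, ‖DP (Sh D Y) (fun n => c1 n - c2 n) k‖ ^ 2 +
        2 * ∑ k ∈ KK, ‖∑ j ∈ J, fA j k * fB j k‖ ^ 2 := by
        rw [Finset.sum_add_distrib, Finset.mul_sum, Finset.mul_sum]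
    _ ≤ _ := by
        have h1 : (J.card : ℝ) ^ 2 * (104976 * C * ℓ ^ 5 * Y ^ 2 / H ^ 2 * R) ≤
            ((⌈D * Real.log ((3 * Y : ℕ) : ℝ)⌉₊ : ℝ) * q ^ 2) ^ 2 * (104976 * C * ℓ ^ 5 * Y ^ 2 / H ^ 2 * R) := by
          gcongr
        linarith

lemma final_num3 (C ℓ Y : ℝ) (I q A B c K G : ℕ) (hC : 0 < C) (hl : 10 ≤ ℓ) (hlC : 58576608 * C ≤ ℓ) (hY : 0 ≤ Y)
    (hc : c = A + 12) (hK : K = 2 * c + 2 * B + 4 + A) (hI : (I : ℝ) ≤ 3 * ℓ ^ (2 * c + 1)) (hq : (q : ℝ) ≤ ℓ ^ B) :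
    2 * (28343520 * C * ℓ ^ 11 * Y ^ 2 / ℓ ^ c) +
      2 * (((I : ℝ) * q ^ 2) ^ 2 * (104976 * C * ℓ ^ 5 * Y ^ 2 / (ℓ ^ (K + G)) ^ 2 * ℓ ^ G)) ≤ Y ^ 2 / ℓ ^ A := by
  have hl0 : 0 < ℓ := by linarith
  have hl1 : 1 ≤ ℓ := by linarith
  refine le_trans ?_ (final_num C ℓ Y I q A B c K hC hl hlC hY hc hK hI hq)
  have h1 : 104976 * C * ℓ ^ 5 * Y ^ 2 / (ℓ ^ (K + G)) ^ 2 * ℓ ^ G ≤ 104976 * C * ℓ ^ 5 * Y ^ 2 / (ℓ ^ K) ^ 2 := by
    have e : 104976 * C * ℓ ^ 5 * Y ^ 2 / (ℓ ^ (K + G)) ^ 2 * ℓ ^ G =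
        104976 * C * ℓ ^ 5 * Y ^ 2 / (ℓ ^ K) ^ 2 * (1 / ℓ ^ G) := by
      rw [pow_add]
      field_simp
    rw [e]
    have h2 : 1 / ℓ ^ G ≤ 1 := by
      rw [div_le_one (by positivity)]
      exact one_le_pow₀ hl1
    exact mul_le_of_le_one_right (by positivity) h2
  gcongr

theorem main : S_AL → S_PAP → S_II3 := by
  intro hAL hPAP e A B G he
  obtain ⟨C, hC, hmv⟩ := Pool.Agent.H376R2.MR.mv
  obtain ⟨c, hc⟩ : ∃ c : ℕ, c = A + 12 := ⟨_, rfl⟩
  obtain ⟨K, hK⟩ : ∃ K : ℕ, K = 2 * c + 2 * B + 4 + A := ⟨_, rfl⟩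
  obtain ⟨n9, h9⟩ := Filter.eventually_atTop.1 (Pool.Agent.helper24_UT.Sil2.ev_pow G (1 / 2) 1 (by norm_num))
  obtain ⟨Ka, La, hLa2, hAL⟩ := hAL (32 * e) B (K + G)
  obtain ⟨Kb, Lb, hLb2, hPAP⟩ := hPAP (32 * e) B (K + G)
  refine ⟨2 * max Ka Kb, ⌈Real.exp (max (max La Lb) (max 10 (58576608 * C)))⌉₊ + n9, ?_⟩
  intro Y hY9 q r hq hqB hrq K₁ hK₁ U V hU hU' hV hV'
  have hY : ⌈Real.exp (max (max La Lb) (max 10 (58576608 * C)))⌉₊ ≤ Y := by omega
  have hG9 := h9 Y (by omega)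
  have hY1 : Real.exp (max (max La Lb) (max 10 (58576608 * C))) ≤ Y :=
    (Nat.le_ceil _).trans (Nat.cast_le.mpr hY)
  have hY0 : (0 : ℝ) < Y := (Real.exp_pos _).trans_le hY1
  have hl' : max (max La Lb) (max 10 (58576608 * C)) ≤ Real.log Y := by
    rw [Real.le_log_iff_exp_le hY0]
    exact hY1
  set ℓ := Real.log Y with hℓ
  have hla : La ≤ ℓ := ((le_max_left _ _).trans (le_max_left _ _)).trans hl'
  have hlb : Lb ≤ ℓ := ((le_max_right _ _).trans (le_max_left _ _)).trans hl'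
  have hl10 : 10 ≤ ℓ := ((le_max_left _ _).trans (le_max_right _ _)).trans hl'
  have hlC : 58576608 * C ≤ ℓ := ((le_max_right _ _).trans (le_max_right _ _)).trans hl'
  have hexpl : Real.exp ℓ = Y := Real.exp_log hY0
  have hY11 : (11 : ℝ) ≤ Y := by
    have := Real.add_one_le_exp ℓ
    linarith
  have hYn : 11 ≤ Y := by exact_mod_cast hY11
  have hl0 : 0 < ℓ := by linarith
  rcases Nat.eq_zero_or_pos K₁ with h0 | hK1
  · have : FK K₁ = ∅ := by
      rw [h0]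
      unfold FK
      simp
    rw [this, Finset.filter_empty, Finset.sum_empty]
    positivity
  have he0 : (1 : ℝ) ≤ e := by exact_mod_cast he
  -- the end points
  have hexp : Real.exp (2 * (2 * ℓ) / (((32 * e : ℕ) : ℝ) + 1)) ≤ (Y : ℝ) ^ (1 / (8 * e) : ℝ) := by
    rw [Real.rpow_def_of_pos hY0]
    apply Real.exp_le_exp.mpr
    rw [← hℓ, mul_one_div, div_le_div_iff₀ (by positivity) (by positivity)]
    push_cast
    nlinarith
  have hexp' : Real.exp ((2 * ℓ) / (((32 * e : ℕ) : ℝ) + 1)) ≤ Real.exp (2 * (2 * ℓ) / (((32 * e : ℕ) : ℝ) + 1)) := by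
    apply Real.exp_le_exp.mpr
    gcongr
    linarith
  have hN3 : ∀ N : ℕ, N ≤ 3 * Y → (N : ℝ) ≤ Real.exp (2 * ℓ) := by
    intro N hN
    have h1 : (N : ℝ) ≤ 3 * Y := by exact_mod_cast hN
    rw [two_mul, Real.exp_add, hexpl]
    nlinarith
  have hU1 : 1 ≤ U := by
    have h1 : (0 : ℝ) < U := (Real.exp_pos _).trans_le (hexp.trans hU)
    exact_mod_cast h1
  -- the frequencies
  have hS2 : Real.sqrt Y ^ 2 = Y := Real.sq_sqrt hY0.le
  have hS0 : 0 < Real.sqrt Y := Real.sqrt_pos.mpr hY0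
  rw [← Real.sqrt_eq_rpow] at hK₁ hG9
  rw [one_mul] at hG9
  have hKY : (K₁ : ℝ) ≤ Y := by
    calc (K₁ : ℝ) ≤ Real.sqrt Y * ℓ ^ G := hK₁
      _ ≤ Real.sqrt Y * Real.sqrt Y := mul_le_mul_of_nonneg_left hG9 hS0.le
      _ = Y := by rw [← sq, hS2]
  have hkk : ∀ k ∈ (FK K₁).filter (fun k : ℤ => ℓ ^ (2 * max Ka Kb) ≤ |(k : ℝ)|), ∀ K' : ℕ, K' ≤ max Ka Kb →
      (2 * ℓ) ^ K' ≤ |(k : ℝ)| ∧ |(k : ℝ)| ≤ Real.exp (((32 * e : ℕ) : ℝ) * (2 * ℓ)) := by
    intro k hk K' hK'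
    rw [Finset.mem_filter] at hk
    constructor
    · refine le_trans ?_ hk.2
      calc (2 * ℓ) ^ K' ≤ (ℓ ^ 2) ^ K' := by
            gcongr
            nlinarith
        _ = ℓ ^ (2 * K') := by rw [← pow_mul]
        _ ≤ ℓ ^ (2 * max Ka Kb) := pow_le_pow_right₀ (by linarith) (by omega)
    · have h1 : |(k : ℝ)| ≤ K₁ := by
        have h2 := hk.1
        unfold FK at h2
        rw [Finset.mem_Ioo] at h2
        rw [abs_le]
        constructor
        · exact_mod_cast h2.1.le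
        · exact_mod_cast h2.2.le
      refine (h1.trans hKY).trans ?_
      rw [← hexpl]
      apply Real.exp_le_exp.mpr
      push_cast
      nlinarith
  have hqB' : (q : ℝ) ≤ (2 * ℓ) ^ B := hqB.trans (pow_le_pow_left₀ hl0.le (by linarith) B)
  have hHle : ℓ ^ (K + G) ≤ (2 * ℓ) ^ (K + G) := pow_le_pow_left₀ hl0.le (by linarith) (K + G)
  have hcore := core hC hmv (ℓ ^ (2 * c)) ℓ (ℓ ^ c) (ℓ ^ (K + G)) (Real.sqrt Y) (ℓ ^ G) (one_le_pow₀ (by linarith)) Y q r U V K₁ (by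
      calc (2 : ℝ) ≤ ℓ := by linarith
        _ ≤ ℓ ^ (2 * c) := le_self_pow₀ (by linarith) (by omega)) hK1 (by omega) hU1 hq hrq hS2 hS0 hK₁ hKY
      (by linarith) (by
        rw [Real.log_mul (by norm_num) hY0.ne', ← hℓ]
        have := Real.log_le_sub_one_of_pos (show (0 : ℝ) < 9 by norm_num)
        linarith) (by positivity) (by positivity) (by rw [← pow_mul, mul_comm])
      ((FK K₁).filter (fun k : ℤ => ℓ ^ (2 * max Ka Kb) ≤ |(k : ℝ)|)) (Finset.filter_subset _ _)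
      (by
        intro k hk s hs hsq N hN1 hN2
        obtain ⟨h1, h2⟩ := hkk k hk Ka (le_max_left _ _)
        have hUN : (U : ℝ) ≤ N := by exact_mod_cast hN1
        have h3 := hAL (2 * ℓ) (by linarith) q s hq hqB' hsq k h1 h2 U (hexp.trans hU) N
          ((hexp'.trans (hexp.trans hU)).trans hUN) (hN3 N hN2)
        rw [Nat.mod_eq_of_lt hs] at h3
        refine h3.trans ?_
        gcongr)
      (by
        intro k hk s hs hsq N hN1 hN2
        obtain ⟨h1, h2⟩ := hkk k hk Kb (le_max_right _ _)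
        have hVN : (V : ℝ) ≤ N := by exact_mod_cast hN1
        have h3 := hPAP (2 * ℓ) (by linarith) q s hq hqB' hsq k h1 h2 N
          ((hexp'.trans (hexp.trans hV)).trans hVN) (hN3 N hN2)
        rw [Nat.mod_eq_of_lt hs] at h3
        refine h3.trans ?_
        gcongr)
  refine hcore.trans ?_
  refine final_num3 C ℓ Y _ q A B c K G hC hl10 hlC hY0.le hc hK ?_ hqB
  have h1 : Real.log ((3 * Y : ℕ) : ℝ) ≤ 2 * ℓ := by
    push_cast
    rw [Real.log_mul (by norm_num) hY0.ne', ← hℓ]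
    have := Real.log_le_sub_one_of_pos (show (0 : ℝ) < 3 by norm_num)
    linarith
  have h2 : 0 ≤ Real.log ((3 * Y : ℕ) : ℝ) := Real.log_natCast_nonneg _
  have h3 : (1 : ℝ) ≤ ℓ ^ (2 * c) := one_le_pow₀ (by linarith)
  have h4 := (Nat.ceil_lt_add_one (show 0 ≤ ℓ ^ (2 * c) * Real.log ((3 * Y : ℕ) : ℝ) by positivity)).le
  refine h4.trans ?_
  rw [pow_succ]
  nlinarith



end Pool.Agent.H561.SW.II3
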