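import Pool.Graph.R_pool_sql_team_seeded_620a6dc7.helper24_UT_.TI2
import Pool.Graph.R_pool_sql_team_seeded_620a6dc7.helper24_UT_.Sil2
import Pool.Agent.H561.SW.Stm

set_option autoImplicit false

/-! The linear sums of Vaughan's identity, frequencies up to `Y^{1/2} (log Y)^G`. -/

namespace Pool.Agent.H561.SW.TI3

open Finset
open Pool.Agent.helper24_UT
open Pool.Agent.helper24_UT.TI2
open Pool.Agent.H376R2.MR (ch er DP FK)

theorem main : S_TI3 := by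
  intro A B G
  obtain ⟨Y₀, hY₀⟩ := large (4 + 4 * B + A + 3 * G) B
  obtain ⟨n9, h9⟩ := Filter.eventually_atTop.1 (Pool.Agent.helper24_UT.Sil2.ev_pow G (1 / 2) 1 (by norm_num))
  refine ⟨A + 2 * B + 8, Y₀ + n9, ?_⟩
  intro Y hYY q r hq hqB _ K₁ hK₁ D γ i hD hγ hi
  have hY : Y₀ ≤ Y := by omega
  have hG9 := h9 Y (by omega)
  rw [one_mul] at hG9
  obtain ⟨h4, hL, hLB, hLn⟩ := hY₀ Y hY
  set L := Real.log Y with hLdef
  have hY4 : (4 : ℝ) ≤ Y := by exact_mod_cast h4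
  have hL1 : 1 ≤ L := by linarith
  have hqY : q ≤ Y := by
    have : (q : ℝ) ≤ Y := hqB.trans hLB
    exact_mod_cast this
  have hDY : D ≤ Y := by
    have h1 : (Y : ℝ) ^ (1 / 8 : ℝ) ≤ (Y : ℝ) ^ (1 : ℝ) :=
      Real.rpow_le_rpow_of_exponent_le (by linarith) (by norm_num)
    rw [Real.rpow_one] at h1
    exact_mod_cast hD.trans h1
  have hKY : (K₁ : ℝ) ≤ Y := by
    calc (K₁ : ℝ) ≤ (Y : ℝ) ^ (1 / 2 : ℝ) * L ^ G := hK₁
      _ ≤ (Y : ℝ) ^ (1 / 2 : ℝ) * (Y : ℝ) ^ (1 / 2 : ℝ) := mul_le_mul_of_nonneg_left hG9 (by positivity)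
      _ = Y := by
          rw [← Real.rpow_add (by linarith)]
          norm_num
  have hl4 : Real.log (4 * Y) ≤ 2 * L := by
    have h1 : Real.log (4 * Y) ≤ Real.log (Y ^ 2 : ℝ) :=
      Real.log_le_log (by linarith) (by nlinarith)
    rw [Real.log_pow] at h1
    push_cast at h1
    exact h1
  have hqR : (1 : ℝ) ≤ q := by exact_mod_cast hq
  have hT1 : 1 ≤ L ^ (A + 2 * B + 8) := one_le_pow₀ hL1
  set T := L ^ (A + 2 * B + 8) with hT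
  set S := (FK K₁).filter (fun k : ℤ => T ≤ |(k : ℝ)|) with hS
  have hk0 : ∀ k ∈ S, k ≠ 0 := by
    intro k hk h
    have := (mem_filter.1 hk).2
    rw [h] at this
    simp at this
    linarith
  -- the pointwise bound
  have hpt : ∀ k ∈ S, ‖DP ((Ioc Y (3 * Y)).filter (fun n => n % q = r % q)) (fun n =>
      ∑ b ∈ n.divisors.filter (fun b => b ≤ D),
      γ b * (((Real.log ((n / b : ℕ) : ℝ)) ^ i : ℝ) : ℂ)) k‖ ^ 2 ≤
      32 * L ^ 4 * q ^ 2 * ((48 * L * Y) ^ 2 * (1 / T * (1 / (k.natAbs : ℝ))) +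
        144 * D ^ 2 * q ^ 2 * K₁ ^ 2) := by
    intro k hk
    have h1 := pointwise (hk0 k hk) (r := r) hi hq hDY hqY (by linarith : (1 : ℝ) ≤ 2 * L) hl4 hγ
    have h2 := pow_le_pow_left₀ (norm_nonneg _) h1 2
    refine h2.trans ?_
    have hkT : T ≤ |(k : ℝ)| := (mem_filter.1 hk).2
    have hkpos : 0 < |(k : ℝ)| := by linarith
    have hkK : |(k : ℝ)| ≤ K₁ := by
      have h3 := (mem_filter.1 hk).1
      unfold FK at h3
      rw [Finset.mem_Ioo] at h3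
      have h4 : |k| ≤ (K₁ : ℤ) := abs_le.2 ⟨by omega, by omega⟩
      exact_mod_cast h4
    have hnat : (k.natAbs : ℝ) = |(k : ℝ)| := by
      rw [Nat.cast_natAbs, Int.cast_abs]
    rw [hnat]
    have e1 : ((2 * L) ^ 2 * q * (24 * (2 * L) * Y / |(k : ℝ)| + 12 * D * q * |(k : ℝ)|)) ^ 2 ≤
        (2 * L) ^ 4 * q ^ 2 * (2 * ((24 * (2 * L) * Y / |(k : ℝ)|) ^ 2 +
          (12 * D * q * |(k : ℝ)|) ^ 2)) := by
      rw [mul_pow]
      have := add_sq_le (a := 24 * (2 * L) * Y / |(k : ℝ)|) (b := 12 * D * q * |(k : ℝ)|)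
      have h5 : ((2 * L) ^ 2 * (q : ℝ)) ^ 2 = (2 * L) ^ 4 * q ^ 2 := by ring
      rw [h5]
      exact mul_le_mul_of_nonneg_left this (by positivity)
    refine e1.trans ?_
    have e2 : (24 * (2 * L) * Y / |(k : ℝ)|) ^ 2 ≤ (48 * L * Y) ^ 2 * (1 / T * (1 / |(k : ℝ)|)) := by
      have h6 : (24 * (2 * L) * Y / |(k : ℝ)|) ^ 2 =
          (48 * L * Y) ^ 2 * (1 / |(k : ℝ)| * (1 / |(k : ℝ)|)) := by ring
      rw [h6]
      gcongr
    have e3 : (12 * D * q * |(k : ℝ)|) ^ 2 ≤ 144 * D ^ 2 * q ^ 2 * K₁ ^ 2 := by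
      have h7 : |(k : ℝ)| ^ 2 ≤ K₁ ^ 2 := pow_le_pow_left₀ hkpos.le hkK 2
      have h8 : (12 * (D : ℝ) * q * |(k : ℝ)|) ^ 2 = 144 * D ^ 2 * q ^ 2 * |(k : ℝ)| ^ 2 := by ring
      rw [h8]
      exact mul_le_mul_of_nonneg_left h7 (by positivity)
    have e4 : (2 * L) ^ 4 * (q : ℝ) ^ 2 * (2 * ((24 * (2 * L) * Y / |(k : ℝ)|) ^ 2 +
          (12 * D * q * |(k : ℝ)|) ^ 2)) = 32 * L ^ 4 * q ^ 2 * ((24 * (2 * L) * Y / |(k : ℝ)|) ^ 2 +
          (12 * D * q * |(k : ℝ)|) ^ 2) := by ring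
    rw [e4]
    exact mul_le_mul_of_nonneg_left (add_le_add e2 e3) (by positivity)
  refine (Finset.sum_le_sum hpt).trans ?_
  rw [← Finset.mul_sum, Finset.sum_add_distrib, Finset.sum_const, nsmul_eq_mul, ← Finset.mul_sum,
    ← Finset.mul_sum]
  -- the reciprocals
  have hrec : ∑ k ∈ S, 1 / ((k.natAbs : ℕ) : ℝ) ≤ 4 * L := by
    have h1 := sum_freq K₁ S (filter_subset _ _) hk0 (fun m => 1 / (m : ℝ)) (fun m => by positivity)
    refine h1.trans ?_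
    have h3 := harmonic_le_one_add_log K₁
    rw [harmonic_eq_sum_Icc] at h3
    push_cast at h3
    have h5 : ∑ m ∈ Icc 1 K₁, 1 / (m : ℝ) ≤ 2 * L := by
      simp only [one_div]
      refine h3.trans ?_
      rcases Nat.eq_zero_or_pos K₁ with h0 | h0
      · rw [h0]; simp; linarith
      have h4 : Real.log K₁ ≤ L := Real.log_le_log (by exact_mod_cast h0) hKY
      linarith
    linarith
  have hcard : (S.card : ℝ) ≤ 2 * K₁ := by
    have h1 : S.card ≤ (FK K₁).card := card_filter_le _ _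
    have h2 : (FK K₁).card ≤ 2 * K₁ := by
      unfold FK
      rw [Int.card_Ioo]
      omega
    exact_mod_cast h1.trans h2
  -- the first part
  have hL0 : 0 ≤ L := by linarith
  have hq2 : (q : ℝ) ^ 2 ≤ L ^ (2 * B) := by
    have := pow_le_pow_left₀ (by linarith) hqB 2
    rwa [← pow_mul, mul_comm B 2] at this
  have hq4 : (q : ℝ) ^ 4 ≤ L ^ (4 * B) := by
    have := pow_le_pow_left₀ (by linarith) hqB 4
    rwa [← pow_mul, mul_comm B 4] at this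
  have hLA : 0 < L ^ A := by positivity
  have p1 : 32 * L ^ 4 * (q : ℝ) ^ 2 * ((48 * L * Y) ^ 2 *
      (1 / T * ∑ k ∈ S, 1 / ((k.natAbs : ℕ) : ℝ))) ≤ 1 / 2 * ((Y : ℝ) ^ 2 / L ^ A) := by
    calc 32 * L ^ 4 * (q : ℝ) ^ 2 * ((48 * L * Y) ^ 2 *
      (1 / T * ∑ k ∈ S, 1 / ((k.natAbs : ℕ) : ℝ)))
        ≤ 32 * L ^ 4 * L ^ (2 * B) * ((48 * L * Y) ^ 2 * (1 / T * (4 * L))) := by gcongr
      _ = 294912 * (L ^ (7 + 2 * B) / T) * Y ^ 2 := by ring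
      _ = 294912 * (1 / (L * L ^ A)) * Y ^ 2 := by
          congr 2
          rw [hT, div_eq_div_iff (by positivity) (by positivity)]
          ring
      _ ≤ _ := by
          have h5 : 294912 * (1 / (L * L ^ A)) * (Y : ℝ) ^ 2 =
            (294912 / L) * ((Y : ℝ) ^ 2 / L ^ A) := by field_simp
          rw [h5]
          refine mul_le_mul_of_nonneg_right ?_ (by positivity)
          rw [div_le_iff₀ (by linarith)]
          linarith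
  have hDK : (D : ℝ) ^ 2 * (K₁ : ℝ) ^ 3 ≤ (Y : ℝ) ^ (7 / 4 : ℝ) * L ^ (3 * G) := by
    have hY0 : (0 : ℝ) ≤ Y := by linarith
    have h5 : (D : ℝ) ^ 2 ≤ (Y : ℝ) ^ (1 / 4 : ℝ) := by
      have := pow_le_pow_left₀ (Nat.cast_nonneg D) hD 2
      rw [← Real.rpow_natCast ((Y : ℝ) ^ (1 / 8 : ℝ)) 2, ← Real.rpow_mul hY0] at this
      have e5 : (1 / 8 : ℝ) * ((2 : ℕ) : ℝ) = 1 / 4 := by norm_num
      rwa [e5] at this
    have h6 : (K₁ : ℝ) ^ 3 ≤ (Y : ℝ) ^ (3 / 2 : ℝ) * L ^ (3 * G) := by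
      have := pow_le_pow_left₀ (Nat.cast_nonneg K₁) hK₁ 3
      rw [mul_pow, ← Real.rpow_natCast ((Y : ℝ) ^ (1 / 2 : ℝ)) 3, ← Real.rpow_mul hY0, ← pow_mul, mul_comm G 3] at this
      have e5 : (1 / 2 : ℝ) * ((3 : ℕ) : ℝ) = 3 / 2 := by norm_num
      rwa [e5] at this
    calc (D : ℝ) ^ 2 * (K₁ : ℝ) ^ 3 ≤ (Y : ℝ) ^ (1 / 4 : ℝ) * ((Y : ℝ) ^ (3 / 2 : ℝ) * L ^ (3 * G)) := by
          gcongr
      _ = (Y : ℝ) ^ (7 / 4 : ℝ) * L ^ (3 * G) := by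
          rw [← mul_assoc, ← Real.rpow_add (by linarith)]
          norm_num
  have p2 : 32 * L ^ 4 * (q : ℝ) ^ 2 * (S.card * (144 * (D : ℝ) ^ 2 * q ^ 2 * K₁ ^ 2)) ≤
      1 / 2 * ((Y : ℝ) ^ 2 / L ^ A) := by
    calc 32 * L ^ 4 * (q : ℝ) ^ 2 * (S.card * (144 * (D : ℝ) ^ 2 * q ^ 2 * K₁ ^ 2))
        ≤ 32 * L ^ 4 * (q : ℝ) ^ 2 * ((2 * K₁) * (144 * (D : ℝ) ^ 2 * q ^ 2 * K₁ ^ 2)) := by gcongr
      _ = 9216 * L ^ 4 * (q : ℝ) ^ 4 * ((D : ℝ) ^ 2 * K₁ ^ 3) := by ring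
      _ ≤ 9216 * L ^ 4 * L ^ (4 * B) * ((Y : ℝ) ^ (7 / 4 : ℝ) * L ^ (3 * G)) := by gcongr
      _ = 1 / 2 * ((18432 * L ^ (4 + 4 * B + A + 3 * G)) * (Y : ℝ) ^ (7 / 4 : ℝ) / L ^ A) := by
          field_simp
          ring
      _ ≤ 1 / 2 * ((Y : ℝ) ^ (1 / 4 : ℝ) * (Y : ℝ) ^ (7 / 4 : ℝ) / L ^ A) := by gcongr
      _ = _ := by
          rw [← Real.rpow_add (by linarith)]
          norm_num
  rw [mul_add]
  linarith



end Pool.Agent.H561.SW.TI3
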