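import Pool.Graph.R_pool_sql_team_seeded_620a6dc7.helper24_UT_.Ch1
import Pool.Agent.H561.SW.II3
import Pool.Agent.H561.SW.TI3
import Pool.Agent.H561.SW.Frl3
import Pool.Agent.H561.SW.Fr3
import Pool.Agent.H561.SW.Sil3
import Pool.Agent.H561.SW.Si3

set_option autoImplicit false

/-! Assembly: primes minus sieve model in progressions in almost all intervals of length `≥ X^{1/2} / (log X)^G`. -/

namespace Pool.Agent.H561.SW

open Pool.Agent.helper24_UT.Ch

theorem t_II3 : S_II3 := II3.main t_AL t_PAP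
theorem t_FRL3 : S_FRL3 := Frl3.main t_II3 TI3.main
theorem t_FR3 : S_FR3 := Fr3.main t_FRL3
theorem t_SIL3 : S_SIL3 := Sil3.main Pool.Agent.helper24_UT.Win.main t_FR3
theorem t_SI3 : S_SI3 := Si3.main t_SIL3

end Pool.Agent.H561.SW
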